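import Mathlib

/-!
# LM, block S7, abstract form: from the uniform bound and the moment of order `P` to the moments of all orders
-/

open MeasureTheory Real Set Filter Topology
open scoped ENNReal NNReal

set_option autoImplicit false

namespace Pool.Agent.Helper35.LM

/-- all orders from the uniform bound and the moment of order `P` -/
theorem all_p_gen {κ : Type} {t : κ → ℝ → ℝ} (ht : ∀ c R, 0 ≤ t c R) {P : ℕ} (hP : 1 ≤ P) {θ : ℝ} (hθ : 1 / 2 < θ) (hPθ : (P : ℝ) * (θ - 1 / 2) = 2 * θ)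
    (h1 : ∀ ε : ℝ, 0 < ε → ∃ C : ℝ, ∀ R : ℝ, 1 ≤ R → ∀ c, t c R ≤ C * R ^ (θ + ε))
    (h2 : ∀ ε : ℝ, 0 < ε → ∃ C : ℝ, ∀ X : ℝ, 1 ≤ X → ∫⁻ R in Icc X (2 * X), ⨆ c, ENNReal.ofReal (t c R ^ P) ≤
      ENNReal.ofReal (C * X ^ ((P : ℝ) * θ - (2 * θ - 1) + ε)))
    {p : ℝ} (hp : 0 < p) {ε : ℝ} (hε : 0 < ε) :
    ∃ C : ℝ, ∀ X : ℝ, 1 ≤ X → ∫⁻ R in Icc X (2 * X), ⨆ c, ENNReal.ofReal (t c R ^ p) ≤
      ENNReal.ofReal (C * X ^ (1 + p * (1 / 2 + (θ - 1 / 2) * max 0 (1 - P / p) + ε))) := by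
  have hP0 : (0 : ℝ) < P := by exact_mod_cast hP
  obtain ⟨C₂, hC₂⟩ := h2 (p * (ε / 2)) (by positivity)
  obtain ⟨C₁, hC₁⟩ := h1 (ε / 2) (by positivity)
  set D₂ : ℝ := max C₂ 0 with hD₂
  set D₁ : ℝ := max C₁ 0 with hD₁
  have hD₂0 : 0 ≤ D₂ := le_max_right _ _
  have hD₁0 : 0 ≤ D₁ := le_max_right _ _
  have hb2 : ∀ X : ℝ, 1 ≤ X → ∫⁻ R in Icc X (2 * X), ⨆ c, ENNReal.ofReal (t c R ^ P) ≤ ENNReal.ofReal (D₂ * X ^ (1 + (P : ℝ) / 2 + p * (ε / 2))) := by
    intro X hX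
    refine (hC₂ X hX).trans (ENNReal.ofReal_le_ofReal ?_)
    have e : (P : ℝ) * θ - (2 * θ - 1) + p * (ε / 2) = 1 + (P : ℝ) / 2 + p * (ε / 2) := by
      have : (P : ℝ) * θ - (P : ℝ) / 2 = 2 * θ := by rw [← hPθ]; ring
      linarith
    rw [e]
    exact mul_le_mul_of_nonneg_right (le_max_left _ _) (by positivity)
  -- from a pointwise bound to the integral
  have key : ∀ (X K K' : ℝ), 1 ≤ X → 0 ≤ K → 0 ≤ K' → (∀ R ∈ Icc X (2 * X), ∀ c, t c R ^ p ≤ K + K' * t c R ^ P) →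
      ∫⁻ R in Icc X (2 * X), ⨆ c, ENNReal.ofReal (t c R ^ p) ≤ ENNReal.ofReal (K * X + K' * (D₂ * X ^ (1 + (P : ℝ) / 2 + p * (ε / 2)))) := by
    intro X K K' hX hK hK' h
    have hX0 : 0 < X := by linarith
    calc ∫⁻ R in Icc X (2 * X), ⨆ c, ENNReal.ofReal (t c R ^ p)
        ≤ ∫⁻ R in Icc X (2 * X), (ENNReal.ofReal K + ENNReal.ofReal K' * ⨆ c, ENNReal.ofReal (t c R ^ P)) := by
          refine setLIntegral_mono' measurableSet_Icc fun R hR => iSup_le fun c => ?_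
          calc ENNReal.ofReal (t c R ^ p) ≤ ENNReal.ofReal (K + K' * t c R ^ P) := ENNReal.ofReal_le_ofReal (h R hR c)
            _ = ENNReal.ofReal K + ENNReal.ofReal K' * ENNReal.ofReal (t c R ^ P) := by
              rw [ENNReal.ofReal_add hK (mul_nonneg hK' (pow_nonneg (ht c R) _)), ENNReal.ofReal_mul hK']
            _ ≤ _ := by
              gcongr
              exact le_iSup (fun c => ENNReal.ofReal (t c R ^ P)) c
      _ = ENNReal.ofReal K * ENNReal.ofReal X + ENNReal.ofReal K' * ∫⁻ R in Icc X (2 * X), ⨆ c, ENNReal.ofReal (t c R ^ P) := by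
          rw [lintegral_add_left measurable_const, lintegral_const_mul' _ _ ENNReal.ofReal_ne_top, lintegral_const, Measure.restrict_apply_univ,
            Real.volume_Icc]
          congr 3
          ring
      _ ≤ ENNReal.ofReal K * ENNReal.ofReal X + ENNReal.ofReal K' * ENNReal.ofReal (D₂ * X ^ (1 + (P : ℝ) / 2 + p * (ε / 2))) := by
          gcongr
          exact hb2 X hX
      _ = _ := by
          rw [← ENNReal.ofReal_mul hK, ← ENNReal.ofReal_mul hK', ← ENNReal.ofReal_add (by positivity) (by positivity)]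
  rcases le_or_gt (P : ℝ) p with hpP | hpP
  · -- `p ≥ P`
    have hmax : max 0 (1 - (P : ℝ) / p) = 1 - P / p := by
      rw [max_eq_right]
      have : (P : ℝ) / p ≤ 1 := by rw [div_le_one hp]; exact hpP
      linarith
    have hd : 0 ≤ p - P := by linarith
    refine ⟨(D₁ * 2 ^ (θ + ε / 2)) ^ (p - P) * D₂, fun X hX => ?_⟩
    have hX0 : 0 < X := by linarith
    refine (key X 0 ((D₁ * (2 * X) ^ (θ + ε / 2)) ^ (p - P)) hX le_rfl (by positivity) ?_).trans (ENNReal.ofReal_le_ofReal ?_)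
    · intro R hR c
      have hR1 : 1 ≤ R := hX.trans hR.1
      have hR0 : 0 < R := by linarith
      have ht0 := ht c R
      have e : t c R ^ p = t c R ^ (p - P) * t c R ^ P := by
        rw [← Real.rpow_natCast (t c R) P, ← Real.rpow_add_of_nonneg ht0 hd hP0.le]
        congr 1
        ring
      rw [e, zero_add]
      refine mul_le_mul_of_nonneg_right ?_ (by positivity)
      refine Real.rpow_le_rpow ht0 ?_ hd
      calc t c R ≤ C₁ * R ^ (θ + ε / 2) := hC₁ R hR1 c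
        _ ≤ D₁ * R ^ (θ + ε / 2) := mul_le_mul_of_nonneg_right (le_max_left _ _) (by positivity)
        _ ≤ D₁ * (2 * X) ^ (θ + ε / 2) := mul_le_mul_of_nonneg_left (Real.rpow_le_rpow hR0.le hR.2 (by linarith)) hD₁0
    · rw [hmax, zero_mul, zero_add, Real.mul_rpow (by norm_num : (0 : ℝ) ≤ 2) hX0.le, ← mul_assoc D₁, Real.mul_rpow (by positivity) (by positivity),
        ← Real.rpow_mul hX0.le]
      have e : X ^ (1 + p * (1 / 2 + (θ - 1 / 2) * (1 - (P : ℝ) / p) + ε)) = X ^ ((θ + ε / 2) * (p - P)) * X ^ (1 + (P : ℝ) / 2 + p * (ε / 2)) *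
          X ^ ((P : ℝ) * (ε / 2)) := by
        rw [← Real.rpow_add hX0, ← Real.rpow_add hX0]
        congr 1
        field_simp
        ring
      rw [e]
      have h3 : 1 ≤ X ^ ((P : ℝ) * (ε / 2)) := Real.one_le_rpow hX (by positivity)
      calc (D₁ * 2 ^ (θ + ε / 2)) ^ (p - P) * X ^ ((θ + ε / 2) * (p - P)) * (D₂ * X ^ (1 + (P : ℝ) / 2 + p * (ε / 2)))
          = ((D₁ * 2 ^ (θ + ε / 2)) ^ (p - P) * D₂ * (X ^ ((θ + ε / 2) * (p - P)) * X ^ (1 + (P : ℝ) / 2 + p * (ε / 2)))) * 1 := by ring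
        _ ≤ ((D₁ * 2 ^ (θ + ε / 2)) ^ (p - P) * D₂ * (X ^ ((θ + ε / 2) * (p - P)) * X ^ (1 + (P : ℝ) / 2 + p * (ε / 2)))) * X ^ ((P : ℝ) * (ε / 2)) :=
            mul_le_mul_of_nonneg_left h3 (by positivity)
        _ = _ := by ring
  · -- `p < P`
    have hmax : max 0 (1 - (P : ℝ) / p) = 0 := by
      rw [max_eq_left]
      have : 1 ≤ (P : ℝ) / p := by rw [one_le_div hp]; exact hpP.le
      linarith
    refine ⟨1 + D₂, fun X hX => ?_⟩
    have hX0 : 0 < X := by linarith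
    refine (key X (X ^ (p / 2)) (X ^ (p / 2 - P / 2)) hX (by positivity) (by positivity) ?_).trans (ENNReal.ofReal_le_ofReal ?_)
    · intro R hR c
      have ht0 := ht c R
      rcases le_or_gt (t c R) (X ^ (1 / 2 : ℝ)) with h | h
      · have h3 : t c R ^ p ≤ X ^ (p / 2) := by
          calc t c R ^ p ≤ (X ^ (1 / 2 : ℝ)) ^ p := Real.rpow_le_rpow ht0 h hp.le
            _ = _ := by rw [← Real.rpow_mul hX0.le]; congr 1; ring
        have h4 : 0 ≤ X ^ (p / 2 - (P : ℝ) / 2) * t c R ^ P := by positivity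
        linarith
      · have ht1 : 0 < t c R := lt_trans (by positivity) h
        have h3 : t c R ^ p ≤ X ^ (p / 2 - (P : ℝ) / 2) * t c R ^ P := by
          have e1 : t c R ^ P = t c R ^ p * t c R ^ ((P : ℝ) - p) := by
            rw [← Real.rpow_natCast (t c R) P, ← Real.rpow_add ht1]
            congr 1
            ring
          have e2 : X ^ (p / 2 - (P : ℝ) / 2) * (X ^ (1 / 2 : ℝ)) ^ ((P : ℝ) - p) = 1 := by
            rw [← Real.rpow_mul hX0.le, ← Real.rpow_add hX0]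
            have : p / 2 - (P : ℝ) / 2 + 1 / 2 * ((P : ℝ) - p) = 0 := by ring
            rw [this, Real.rpow_zero]
          have h5 : (X ^ (1 / 2 : ℝ)) ^ ((P : ℝ) - p) ≤ t c R ^ ((P : ℝ) - p) := Real.rpow_le_rpow (by positivity) h.le (by linarith)
          calc t c R ^ p = t c R ^ p * (X ^ (p / 2 - (P : ℝ) / 2) * (X ^ (1 / 2 : ℝ)) ^ ((P : ℝ) - p)) := by rw [e2, mul_one]
            _ ≤ t c R ^ p * (X ^ (p / 2 - (P : ℝ) / 2) * t c R ^ ((P : ℝ) - p)) := by gcongr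
            _ = _ := by rw [e1]; ring
        have h4 : 0 ≤ X ^ (p / 2) := by positivity
        linarith
    · rw [hmax, mul_zero, add_zero]
      have e1 : X ^ (p / 2) * X = X ^ (1 + p / 2) := by
        rw [add_comm, Real.rpow_add hX0, Real.rpow_one]
      have e2 : X ^ (p / 2 - (P : ℝ) / 2) * X ^ (1 + (P : ℝ) / 2 + p * (ε / 2)) = X ^ (1 + p / 2 + p * (ε / 2)) := by
        rw [← Real.rpow_add hX0]
        congr 1
        ring
      have h3 : X ^ (1 + p / 2) ≤ X ^ (1 + p * (1 / 2 + ε)) := by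
        apply Real.rpow_le_rpow_of_exponent_le hX
        have : 0 < p * ε := by positivity
        linarith
      have h4 : X ^ (1 + p / 2 + p * (ε / 2)) ≤ X ^ (1 + p * (1 / 2 + ε)) := by
        apply Real.rpow_le_rpow_of_exponent_le hX
        have : 0 < p * ε := by positivity
        linarith
      calc X ^ (p / 2) * X + X ^ (p / 2 - (P : ℝ) / 2) * (D₂ * X ^ (1 + (P : ℝ) / 2 + p * (ε / 2)))
          = X ^ (p / 2) * X + D₂ * (X ^ (p / 2 - (P : ℝ) / 2) * X ^ (1 + (P : ℝ) / 2 + p * (ε / 2))) := by ring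
        _ = X ^ (1 + p / 2) + D₂ * X ^ (1 + p / 2 + p * (ε / 2)) := by rw [e1, e2]
        _ ≤ X ^ (1 + p * (1 / 2 + ε)) + D₂ * X ^ (1 + p * (1 / 2 + ε)) := add_le_add h3 (mul_le_mul_of_nonneg_left h4 hD₂0)
        _ = _ := by ring

end Pool.Agent.Helper35.LM
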