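import Pool.Agent.Helper75.LM.Defs
import Pool.Agent.Helper35.LM.AllPGen

/-!
# LM, block S7: all orders `p` from the uniform bound and the moment of order `P`
-/

open MeasureTheory Real Set Filter Topology Metric
open scoped ENNReal NNReal

set_option autoImplicit false

namespace Pool.Agent.Helper35.LM

open Pool.Agent.Helper22.AE
open Pool.Agent.Helper75.GD (LB)
open Pool.Agent.Helper75.LM (LMo)
open Pool.Agent.Helper92.LA (lcnt)
open Pool.Agent.Helper22.LP (Fr fdet)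

theorem all_p {H : ℝ → ℝ} {P : ℕ} (hP : 1 ≤ P) {θ : ℝ} (hθ : 1 / 2 < θ) (hPθ : (P : ℝ) * (θ - 1 / 2) = 2 * θ) {ab : Fr} (h1 : LB H θ ab) (h2 : LMo H P θ ab)
    {p : ℝ} (hp : 0 < p) {ε : ℝ} (hε : 0 < ε) :
    ∃ C : ℝ, ∀ X : ℝ, 1 ≤ X → ∫⁻ R in Icc X (2 * X), ⨆ c : ℝ × ℝ, ENNReal.ofReal (|lcnt ab H c R - area H * R ^ 2 / abs (fdet ab)| ^ p) ≤
      ENNReal.ofReal (C * X ^ (1 + p * (1 / 2 + (θ - 1 / 2) * max 0 (1 - P / p) + ε))) :=
  all_p_gen (t := fun (c : ℝ × ℝ) (R : ℝ) => |lcnt ab H c R - area H * R ^ 2 / abs (fdet ab)|) (fun _ _ => abs_nonneg _) hP hθ hPθ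
    (fun ε hε => by
      obtain ⟨C, hC⟩ := h1 ε hε
      exact ⟨C, fun R hR c => hC R hR c⟩) h2 hp hε

end Pool.Agent.Helper35.LM
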